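import Mathlib

/-! Project ZE (log Sarnak for zero entropy systems with null irrational eigenvalues): definitions. Paper: team-store h98_ZE_paper.md -/

set_option autoImplicit false

namespace Pool.Agent.Lib.MP_3e612f_nt.ZE

open Finset MeasureTheory Filter Topology

/-- Local Gowers box norm of the word `w` at the place `j`, of order `k + 1`, to the power `2 ^ (k + 1)`. -/
noncomputable def psi (H : ℕ) : ℕ → (ℕ → ℂ) → ℕ → ℝ
  | 0, w, j => ‖(∑ a ∈ range H, w (j + a)) / (H : ℂ)‖ ^ 2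
  | k + 1, w, j => (∑ a ∈ range H, ∑ b ∈ range H, psi H k (fun n => w (n + a) * (starRingEnd ℂ) (w (n + b))) j) / (H : ℝ) ^ 2

/-- `τ` is an action of `ℤ` by measure preserving maps. -/
structure IsAct {X : Type} [MeasurableSpace X] (m : Measure X) (τ : ℤ → X → X) : Prop where
  zero : ∀ x, τ 0 x = x
  add : ∀ a b x, τ (a + b) x = τ a (τ b x)
  mp : ∀ n, MeasurePreserving (τ n) m m

/-- The box norm of order `k + 1` at the scale `H` of a function on the system, to the power `2 ^ (k + 1)`. -/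
noncomputable def nrm {X : Type} [MeasurableSpace X] (m : Measure X) (τ : ℤ → X → X) (H : ℕ) : ℕ → (X → ℝ) → ℝ
  | 0, g => ∫ x, ((∑ a ∈ range H, g (τ (a : ℤ) x)) / (H : ℝ)) ^ 2 ∂m
  | k + 1, g => (∑ a ∈ range H, ∑ b ∈ range H, nrm m τ H k (fun x => g (τ (a : ℤ) x) * g (τ (b : ℤ) x))) / (H : ℝ) ^ 2

/-- The seminorm of order `k + 1` of `g` vanishes (along some scales). -/
def Null {X : Type} [MeasurableSpace X] (m : Measure X) (τ : ℤ → X → X) (k : ℕ) (g : X → ℝ) : Prop :=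
  ∀ d : ℝ, 0 < d → ∃ H : ℕ, 1 ≤ H ∧ nrm m τ H k g ≤ d

/-- Dual functions of order `k + 1` at the scale `H`. -/
def Dual {X : Type} [MeasurableSpace X] (τ : ℤ → X → X) (H : ℕ) : ℕ → Set (X → ℝ)
  | 0 => {d | ∃ F : X → ℝ, Measurable F ∧ (∀ x, |F x| ≤ 1) ∧
      d = fun x => (∑ a ∈ range H, ∑ b ∈ range H, F (τ ((b : ℤ) - (a : ℤ)) x)) / (H : ℝ) ^ 2}
  | k + 1 => {d | ∃ (F : X → ℝ) (e : ℕ → ℕ → X → ℝ), Measurable F ∧ (∀ x, |F x| ≤ 1) ∧ (∀ a b, e a b ∈ Dual τ H k) ∧
      d = fun x => (∑ a ∈ range H, ∑ b ∈ range H, F (τ ((b : ℤ) - (a : ℤ)) x) * e a b (τ (-(a : ℤ)) x)) / (H : ℝ) ^ 2}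

/-- `D` is a weak limit (along the hyperfilter) of dual functions of order `k + 1` at the scales `H + 1`. -/
def IsLim {X : Type} [MeasurableSpace X] (m : Measure X) (τ : ℤ → X → X) (k : ℕ) (D : X → ℝ) : Prop :=
  Measurable D ∧ (∀ x, |D x| ≤ 1) ∧ ∃ d : ℕ → X → ℝ, (∀ H, d H ∈ Dual τ (H + 1) k) ∧
    ∀ u : X → ℝ, Integrable u m → Tendsto (fun H => ∫ x, d H x * u x ∂m) (hyperfilter ℕ) (𝓝 (∫ x, D x * u x ∂m))

/-- The algebra generated by the limits of dual functions of order `k + 1`. -/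
def Alg {X : Type} [MeasurableSpace X] (m : Measure X) (τ : ℤ → X → X) (k : ℕ) : Subalgebra ℝ (X → ℝ) :=
  Algebra.adjoin ℝ {D | IsLim m τ k D}

/-- total logarithmic weight -/
noncomputable def lw (N : ℕ) : ℝ := ∑ n ∈ range N, 1 / ((n : ℝ) + 1)

/-- logarithmic average up to `N` -/
noncomputable def lav (N : ℕ) (F : ℕ → ℝ) : ℝ := (∑ n ∈ range N, F n / ((n : ℝ) + 1)) / lw N

/-- limit of the logarithmic averages along the ultrafilter `V` -/
noncomputable def Lam (V : Ultrafilter ℕ) (F : ℕ → ℝ) : ℝ := limUnder (V : Filter ℕ) (fun N => lav N F)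

/-- the primes in `(P, 4P]` -/
def PP (P : ℕ) : Finset ℕ := (Ioc P (4 * P)).filter Nat.Prime

/-- average over the primes in `(P, 4P]` -/
noncomputable def pav (P : ℕ) (f : ℕ → ℝ) : ℝ := (∑ p ∈ PP P, f p) / ((PP P).card : ℝ)

/-- entropy of a finite vector -/
noncomputable def ent {α : Type} [Fintype α] (p : α → ℝ) : ℝ := ∑ a, Real.negMulLog (p a)

open Classical in
/-- the law of `f` with respect to `Lam V` -/
noncomputable def law {α : Type} (V : Ultrafilter ℕ) (f : ℕ → α) (a : α) : ℝ := Lam V (fun n => if f n = a then 1 else 0)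

/-- the sign of the Moebius function -/
noncomputable def xs (n : ℕ) : SignType := SignType.sign (ArithmeticFunction.moebius n)

/-- the window of length `K` at the place `n` -/
noncomputable def win (K : ℕ) (n : ℕ) : Fin K → SignType := fun i => xs (n + i)

/-- the weights `log P * 1_{m prime, P < m ≤ 4P}` -/
noncomputable def wtp (P : ℕ) (m : ℕ) : ℝ := if m ∈ PP P then Real.log P else 0

/-- energy of weights -/
noncomputable def al (Q H : ℕ) : ℕ → (ℕ → ℝ) → ℝ
  | 0, A => ((∑ m ∈ range Q, A m) / (Q : ℝ)) ^ 2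
  | k + 1, A => (∑ a ∈ range H, ∑ b ∈ range H, al Q H k (fun m => A (m + a) * A (m + b))) / (H : ℝ) ^ 2

/-- correlation along multiples of `m` -/
noncomputable def corr {X : Type} [MeasurableSpace X] (mm : Measure X) (τ : ℤ → X → X) (L : List (ℤ × (X → ℝ))) (m : ℕ) : ℝ :=
  ∫ x, (L.map fun q => q.2 (τ ((m : ℤ) * q.1) x)).prod ∂mm

end Pool.Agent.Lib.MP_3e612f_nt.ZE
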