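import Pool.Agent.Lib.MP_3e612f_nt.ZE.I.Nil
import Pool.Agent.Lib.MP_3e612f_nt.ZE.H.Cover
import Pool.Agent.Lib.MP_3e612f_nt.ZE.H.Q1
import Pool.Agent.Lib.MP_3e612f_nt.ZE.W.Pt
import Pool.Agent.Lib.MP_3e612f_nt.ZE.G.Stmt

/-! Draft of the hand-in ZeroEntropyNull: the logarithmic Sarnak conjecture for systems of zero entropy whose ergodic measures have their irrational eigenvalues in a null set. -/

set_option autoImplicit false

namespace Pool.Agent.Lib.MP_3e612f_nt.ZE.Res

open MeasureTheory Filter Topology ProbabilityTheory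
open Pool.Agent.Lib.MP_3e612f_nt.NF (dot LL MalZ NilMfd)

/-- The local box norm (to the power `2 ^ (K + 1)`) of order `K + 1` at the scale `H` of the sequence `w` at the place `j`: `|(1/H) ∑_{a < H} w(j + a)|²` for `K = 0`, and the average over `a, b < H` of the box norms of order `K` of `n ↦ w(n + a) conj(w(n + b))` for order `K + 1`. -/
noncomputable def box (H : ℕ) : ℕ → (ℕ → ℂ) → ℕ → ℝ
  | 0, w, j => ‖(∑ a ∈ Finset.range H, w (j + a)) / (H : ℂ)‖ ^ 2
  | K + 1, w, j => (∑ a ∈ Finset.range H, ∑ b ∈ Finset.range H, box H K (fun n => w (n + a) * (starRingEnd ℂ) (w (n + b))) j) / (H : ℝ) ^ 2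

/-- There are a joining `lam` of `ν` with an invariant measure of `(X, T)` (an invariant Borel probability measure on `X × Y` with second marginal `ν`), a continuous function `f` on `X` with `|f| ≤ 1` and a scale `H` such that the average (with respect to `lam`) of the box norm of order `K + 1` at the scale `H` of `n ↦ g(S^n y) - f(T^n x)` is at most `ε`. -/
def NearBox {X Y : Type} [TopologicalSpace X] [MeasurableSpace Y] (T : X → X) (S : Y → Y) (ν : Measure Y) (g : Y → ℂ) (K : ℕ) (ε : ℝ) : Prop :=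
  ∃ (_ : MeasurableSpace X) (_ : BorelSpace X) (f : X → ℂ) (H : ℕ) (lam : Measure (X × Y)), Continuous f ∧ (∀ x, ‖f x‖ ≤ 1) ∧ 1 ≤ H ∧ IsProbabilityMeasure lam ∧
    MeasurePreserving (Prod.map T S) lam lam ∧ lam.map Prod.snd = ν ∧ ∫ p, box H K (fun n => g (S^[n] p.2) - f (T^[n] p.1)) 0 ∂lam ≤ ε

/-- All frequencies `m · p₀(u_q … u_0)`, `0 ≠ m ∈ ℤ^d`, of the return rotation `u_q … u_0` are irrational and in `E`, and it is not in `{n = 0}` (unless `n = 0` on `G`). -/
def FreqIn {G : Type} [Group G] [TopologicalSpace G] {Γ : Subgroup G} {k : ℕ} (M : MalZ G Γ k) {q : ℕ} (u : Fin (q + 1) → G) (E : Set ℝ) : Prop :=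
  ((∀ x, M.n x = 0) ∨ ∑ j, M.n (u j) ≠ 0) ∧ ∀ m : M.I 0 → ℤ, m ≠ 0 → ∑ j, dot m (M.p 0 (u j)) ∈ E ∧ ∀ r : ℚ, ∑ j, dot m (M.p 0 (u j)) ≠ r

/-- The measure `ν` is modelled, for `g`, in all box norms by nilsystems on the nilmanifolds `G/Γ` of the list `𝒩` with all frequencies in `E`: for every order and every `ε > 0` it is `ε`-near (in the sense of `NearBox`) to a system `T(j, x) = (j + 1, u_j x)` on `{0, …, q} × G/Γ` (`j + 1` modulo `q + 1`) with `FreqIn M u E`.
(By Host and Kra this holds for every ergodic measure, with `E` depending only on its irrational eigenvalues, and null if these are in a null set.) -/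
def ModelledBox {Y : Type} [MeasurableSpace Y] (S : Y → Y) (g : Y → ℂ) (𝒩 : ℕ → NilMfd) (E : Set ℝ) (ν : Measure Y) : Prop :=
  ∀ (K : ℕ) (ε : ℝ), 0 < ε → ∃ (i q : ℕ) (u : Fin (q + 1) → (𝒩 i).G), FreqIn (𝒩 i).M u E ∧
    NearBox (fun z : Fin (q + 1) × ((𝒩 i).G ⧸ (𝒩 i).Γ) => ((z.1 + 1, u z.1 • z.2) : Fin (q + 1) × ((𝒩 i).G ⧸ (𝒩 i).Γ))) S ν g K ε

/-- `ν` is a logarithmic limit measure of the set `F` of sequences in `Y`: the weak-* limit of averages of the point masses at `S^n y_x`, `n < h`, `x < N` with the weight `1/(x+1)`, for sequences `y ∈ F`, with `h → ∞`, `log N / h → ∞`. -/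
def LogLimit {Y : Type} [TopologicalSpace Y] [MeasurableSpace Y] (S : Y → Y) (F : Set (ℕ → Y)) (ν : Measure Y) : Prop :=
  ∃ (N h : ℕ → ℕ) (y : ℕ → ℕ → Y), (∀ k, y k ∈ F) ∧ Tendsto h atTop atTop ∧
    Tendsto (fun k => Real.log (N k) / (h k : ℝ)) atTop atTop ∧ ∀ φ : C(Y, ℝ),
      Tendsto (fun k => (∑ x ∈ Finset.range (N k), (∑ n ∈ Finset.range (h k), φ (S^[n] (y k x))) / ((x : ℝ) + 1)) /
        (Real.log (N k) * (h k : ℝ))) atTop (𝓝 (∫ z, φ z ∂ν))

/-- Zero entropy of `ν` with respect to `g`, in Katok's form: for all large `J` there are at most `exp (δ J)` points such that, outside of a set of measure at most `ε`, each word `(g (S^n y))_{n < J}` is `ε`-close in mean to the word of one of these points. -/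
def ZeroEntropy {Y : Type} [MeasurableSpace Y] (S : Y → Y) (g : Y → ℂ) (ν : Measure Y) : Prop :=
  ∀ ε : ℝ, 0 < ε → ∀ δ : ℝ, 0 < δ → ∃ J₀ : ℕ, ∀ J ≥ J₀, ∃ C : Finset Y, (C.card : ℝ) ≤ Real.exp (δ * J) ∧
    ν {y | ∀ c ∈ C, ε * J ≤ ∑ n ∈ Finset.range J, ‖g (S^[n] y) - g (S^[n] c)‖} ≤ ENNReal.ofReal ε

theorem box_eq (H K : ℕ) (w : ℕ → ℂ) (j : ℕ) : box H K w j = psi H K w j := by
  induction K generalizing w with
  | zero => rfl
  | succ K ih =>
    unfold box psi
    simp only [ih]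

/-- Let `Y` be a compact metric space, `S : Y → Y` and `g : Y → ℂ` continuous, `|g| ≤ 1`, and `F` a set of sequences in `Y`. Suppose that `S` has topological entropy zero, or that all logarithmic limit measures of `F` have zero entropy. Suppose that for every logarithmic limit measure `ν` of `F` there are a list of nilmanifolds and a Lebesgue null set `E` such that
almost every ergodic component `κ` of `ν` (conditional measure with respect to the σ-algebra of the invariant sets) is weakly mixing (`κ × κ` is ergodic) or modelled, in all box norms, by nilsystems on these nilmanifolds with all frequencies in `E`. Then for every `ε > 0`, for `h ≥ h₀(ε)` and `N ≥ N₀(ε, h)`, for all `y ∈ F`: `∑_{x < N} |∑_{n < h} μ(x + n) g(S^n y_x)| / (x + 1) ≤ ε h log N`, and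
`(1 / log N) ∑_{1 ≤ n ≤ N} g(S^n y₀) μ(n) / n → 0` for every `y₀` with `(S^n y₀)_n ∈ F`. -/
theorem result (Y : Type) [MetricSpace Y] [CompactSpace Y] [MeasurableSpace Y] [BorelSpace Y]
    (S : Y → Y) (hS : Continuous S) (g : Y → ℂ) (hg : Continuous g) (hg1 : ∀ y, ‖g y‖ ≤ 1) (F : Set (ℕ → Y))
    (hE : Dynamics.coverEntropy S Set.univ = 0 ∨ ∀ (ν : Measure Y) (_ : IsProbabilityMeasure ν), LogLimit S F ν → ZeroEntropy S g ν)
    (hF : ∀ (ν : Measure Y) (_ : IsProbabilityMeasure ν), LogLimit S F ν → ∃ (𝒩 : ℕ → NilMfd) (E : Set ℝ), volume E = 0 ∧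
      ∀ᵐ y ∂ν, Ergodic S (condExpKernel ν (MeasurableSpace.invariants S) y) →
        Ergodic (Prod.map S S) ((condExpKernel ν (MeasurableSpace.invariants S) y).prod (condExpKernel ν (MeasurableSpace.invariants S) y)) ∨
          ModelledBox S g 𝒩 E (condExpKernel ν (MeasurableSpace.invariants S) y)) :
    (∀ ε : ℝ, 0 < ε → ∃ h₀ : ℕ, ∀ h ≥ h₀, ∃ N₀ : ℕ, ∀ N ≥ N₀, ∀ y ∈ F,
      ∑ x ∈ Finset.range N, ‖∑ n ∈ Finset.range h, ((ArithmeticFunction.moebius (x + n) : ℤ) : ℂ) * g (S^[n] (y x))‖ / ((x : ℝ) + 1) ≤ ε * h * Real.log N) ∧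
    ∀ y₀ : Y, (fun n => S^[n] y₀) ∈ F → Tendsto (fun N : ℕ => (1 / (Real.log (N : ℝ) : ℂ)) *
      ∑ n ∈ Finset.Icc 1 N, g (S^[n] y₀) * ((ArithmeticFunction.moebius n : ℤ) : ℂ) / (n : ℂ)) atTop (𝓝 0) := by
  have hg2 : ∀ y, ‖(1 / 2 : ℂ) * g y‖ ≤ 1 / 2 := by
    intro y
    rw [norm_mul]
    have h1 : ‖(1 / 2 : ℂ)‖ = 1 / 2 := by simp
    rw [h1]
    have := hg1 y
    linarith
  have hmain : ∀ ε : ℝ, 0 < ε → ∃ h₀ : ℕ, ∀ h ≥ h₀, ∃ N₀ : ℕ, ∀ N ≥ N₀, ∀ y ∈ F,
      ∑ x ∈ Finset.range N, ‖∑ n ∈ Finset.range h, ((ArithmeticFunction.moebius (x + n) : ℤ) : ℂ) * g (S^[n] (y x))‖ / ((x : ℝ) + 1) ≤ ε * h * Real.log N := by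
    intro ε hε
    obtain ⟨h₀, H⟩ := nil_ze stmtL S hS (fun y => (1 / 2 : ℂ) * g y) (continuous_const.mul hg) hg2 F (fun ν hν hD => by
      refine ⟨?_, ?_⟩
      · rcases hE with hE | hE
        · exact zent_of_cover S hS hE _ (continuous_const.mul hg) ν
        · intro e he δ hδ
          obtain ⟨J₀, hJ⟩ := hE ν hν hD e he δ hδ
          refine ⟨J₀, fun J hJ0 => ?_⟩
          obtain ⟨C, hC1, hC2⟩ := hJ J hJ0
          refine ⟨C, hC1, (measure_mono fun y hy c hc => ?_).trans hC2⟩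
          refine (hy c hc).trans (Finset.sum_le_sum fun n _ => ?_)
          rw [← mul_sub, norm_mul]
          have h1 : ‖(1 / 2 : ℂ)‖ = 1 / 2 := by simp
          rw [h1]
          have := norm_nonneg (g (S^[n] y) - g (S^[n] c))
          linarith
      · obtain ⟨𝒩, E, hE0, hae⟩ := hF ν hν hD
        refine ⟨fun i => Nat.casesOn i pt 𝒩, E, hE0, ?_⟩
        filter_upwards [hae] with y hy herg
        rcases hy herg with hwm | hy
        · exact nilU_wm S hS _ (continuous_const.mul hg) hg2 _ herg.toMeasurePreserving hwm _ rfl E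
        intro K e he
        obtain ⟨i, q, u, hu, m, hb, f, H, lam, hf, hf1, hH, h1, h2, h3, h4⟩ := hy K e he
        refine ⟨i + 1, q, u, hu, m, hb, fun x => (1 / 2 : ℂ) * f x, H, lam, continuous_const.mul hf, ?_, hH, h1, h2, h3, ?_⟩
        · intro x
          rw [norm_mul]
          have h5 : ‖(1 / 2 : ℂ)‖ = 1 / 2 := by simp
          rw [h5]
          have := hf1 x
          linarith
        · have h5 : ∀ p, Ps ((𝒩 i).sys u) S (fun x => (1 / 2 : ℂ) * f x) (fun y => (1 / 2 : ℂ) * g y) H K p =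
              (1 / 2 : ℝ) ^ (2 ^ (K + 1)) * box H K (fun n => g (S^[n] p.2) - f (((𝒩 i).sys u)^[n] p.1)) 0 := by
            intro p
            rw [box_eq]
            have h6 := psi_smul H K (1 / 2 : ℂ) (fun n => g (S^[n] p.2) - f (((𝒩 i).sys u)^[n] p.1)) 0
            have h7 : ‖(1 / 2 : ℂ)‖ = 1 / 2 := by simp
            rw [h7] at h6
            rw [← h6]
            unfold Ps
            congr 1
            funext n
            unfold wd
            ring
          simp only [h5]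
          rw [integral_const_mul]
          have h6 : 0 ≤ ∫ p, box H K (fun n => g (S^[n] p.2) - f (((𝒩 i).sys u)^[n] p.1)) 0 ∂lam :=
            integral_nonneg fun p => by
              simp only [box_eq]
              exact psi_nonneg _ _ _ _
          have h7 : (1 / 2 : ℝ) ^ (2 ^ (K + 1)) ≤ 1 := pow_le_one₀ (by norm_num) (by norm_num)
          have h8 := mul_le_mul_of_nonneg_right h7 h6
          rw [one_mul] at h8
          exact h8.trans h4) (ε / 2) (by positivity)
    refine ⟨h₀, fun h hh => ?_⟩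
    obtain ⟨N₀, H⟩ := H h hh
    refine ⟨N₀, fun N hN y hy => ?_⟩
    have h1 := H N hN y hy
    have h2 : ∀ x, ‖∑ n ∈ Finset.range h, PI.mc (x + n) * ((1 / 2 : ℂ) * g (S^[n] (y x)))‖ / ((x : ℝ) + 1) =
        (1 / 2) * (‖∑ n ∈ Finset.range h, ((ArithmeticFunction.moebius (x + n) : ℤ) : ℂ) * g (S^[n] (y x))‖ / ((x : ℝ) + 1)) := by
      intro x
      have h3 : ∑ n ∈ Finset.range h, PI.mc (x + n) * ((1 / 2 : ℂ) * g (S^[n] (y x))) = (1 / 2 : ℂ) * ∑ n ∈ Finset.range h, ((ArithmeticFunction.moebius (x + n) : ℤ) : ℂ) * g (S^[n] (y x)) := by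
        rw [Finset.mul_sum]
        refine Finset.sum_congr rfl fun n _ => ?_
        unfold PI.mc
        ring
      rw [h3, norm_mul]
      have h4 : ‖(1 / 2 : ℂ)‖ = 1 / 2 := by simp
      rw [h4]
      ring
    rw [Finset.sum_congr rfl fun x _ => h2 (x : ℕ), ← Finset.mul_sum] at h1
    linarith
  refine ⟨hmain, fun y₀ hy₀ => ?_⟩
  have h1 := q1_of_windows (fun n => ((ArithmeticFunction.moebius n : ℤ) : ℂ) * g (S^[n] y₀)) (fun n => by
    rw [norm_mul]
    have h2 : ‖((ArithmeticFunction.moebius n : ℤ) : ℂ)‖ ≤ 1 := LOM.mc_le n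
    exact mul_le_one₀ h2 (norm_nonneg _) (hg1 _)) (fun ε hε => by
    obtain ⟨h₀, H⟩ := hmain ε hε
    obtain ⟨N₀, H⟩ := H (max h₀ 1) (le_max_left _ _)
    refine ⟨max h₀ 1, le_max_right _ _, N₀, fun N hN => ?_⟩
    refine le_trans (le_of_eq (Finset.sum_congr rfl fun x _ => ?_)) (H N hN _ hy₀)
    congr 2
    refine Finset.sum_congr rfl fun n _ => ?_
    rw [Nat.add_comm x n, Function.iterate_add_apply])
  refine h1.congr fun N => ?_
  congr 1
  refine Finset.sum_congr rfl fun n _ => ?_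
  ring

end Pool.Agent.Lib.MP_3e612f_nt.ZE.Res
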